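import Mathlib
import Pool.Agent.Q240.FL.Core

/-!
The Liouville function is not flat from below: `liminf m(N) / √N = 0`.

More generally, let `f` be any sequence of complex numbers of modulus one. If `m(N)` tended to infinity, then by
Rouché's theorem the number of zeros in the unit disc of the polynomials `∑_{n ≤ N} f(n) z ^ n` would be constant for
large `N`; all nonzero zeros have modulus at least `1/2`, so Jensen's formula bounds the mean of
`log |∑_{n ≤ N} f(n) z ^ n|` over the circle, a contradiction. Hence `m(N)` has a bounded subsequence.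
-/

set_option autoImplicit false

namespace Pool.Agent.Results.MP_69dca4_nt.NotFlat

open Filter

/-- `S_N(θ) = ∑_{n = 1}^N f(n) e(n θ)`. -/
noncomputable def S (f : ℕ → ℂ) (N : ℕ) (θ : ℝ) : ℂ :=
  ∑ n ∈ Finset.Icc 1 N, f n * Complex.exp (2 * Real.pi * Complex.I * n * θ)

/-- `m(N)`: the infimum (minimum) of `|S_N(θ)|` over real `θ`. -/
noncomputable def m (f : ℕ → ℂ) (N : ℕ) : ℝ := ⨅ θ : ℝ, ‖S f N θ‖

/-- The Liouville function, with complex values. -/
def liouville (n : ℕ) : ℂ := ((ArithmeticFunction.liouville n : ℤ) : ℂ)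

theorem S_eq (f : ℕ → ℂ) (N : ℕ) (θ : ℝ) : ‖S f N θ‖ =
    ‖(Q240.FL.Q (fun n => f (n + 1)) N).eval (Complex.exp (2 * Real.pi * Complex.I * θ))‖ := by
  rw [Q240.FL.Q_eval]
  have h1 : S f N θ = Complex.exp (2 * Real.pi * Complex.I * θ) *
      ∑ n ∈ Finset.range N, f (n + 1) * Complex.exp (2 * Real.pi * Complex.I * θ) ^ n := by
    unfold S
    rw [Finset.mul_sum]
    have h2 : Finset.Icc 1 N = Finset.Ico 1 (N + 1) := rfl
    rw [h2, Finset.sum_Ico_eq_sum_range]
    apply Finset.sum_congr (by simp)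
    intro n _
    rw [← Complex.exp_nat_mul, add_comm 1 n, mul_left_comm, ← Complex.exp_add]
    congr 2
    push_cast
    ring
  rw [h1, norm_mul]
  have h3 : ‖Complex.exp (2 * Real.pi * Complex.I * θ)‖ = 1 := by
    rw [Complex.norm_exp]
    simp
  rw [h3, one_mul]

theorem m_nonneg (f : ℕ → ℂ) (N : ℕ) : 0 ≤ m f N := Real.iInf_nonneg fun _ => norm_nonneg _

/-- For every unimodular sequence, `m(N) ≤ C` for some `C` and infinitely many `N`. -/
theorem bounded_subsequence {f : ℕ → ℂ} (hf : ∀ n, 1 ≤ n → ‖f n‖ = 1) : ∃ C : ℝ, ∃ᶠ N in atTop, m f N ≤ C := by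
  obtain ⟨C, hC⟩ := Q240.FL.core (a := fun n => f (n + 1)) (fun n => hf _ (by omega))
  refine ⟨C, ?_⟩
  rw [frequently_atTop]
  intro N₀
  obtain ⟨N, hN, z, hz, h1⟩ := hC N₀
  refine ⟨N, hN, ?_⟩
  have h2 : Complex.exp (2 * Real.pi * Complex.I * ((Complex.arg z / (2 * Real.pi) : ℝ) : ℂ)) = z := by
    have h3 : (2 * Real.pi * Complex.I * ((Complex.arg z / (2 * Real.pi) : ℝ) : ℂ) : ℂ) =
        Complex.arg z * Complex.I := by
      push_cast
      have : (Real.pi : ℂ) ≠ 0 := by exact_mod_cast Real.pi_ne_zero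
      field_simp
    rw [h3]
    have h4 := Complex.norm_mul_exp_arg_mul_I z
    rw [hz] at h4
    simpa using h4
  refine le_trans (ciInf_le ⟨0, ?_⟩ (Complex.arg z / (2 * Real.pi))) ?_
  · rintro _ ⟨θ, rfl⟩
    exact norm_nonneg _
  · rw [S_eq, h2]
    exact h1

/-- the quotient `m(N) / √N` is frequently small -/
theorem frequently_small {f : ℕ → ℂ} (hf : ∀ n, 1 ≤ n → ‖f n‖ = 1) {c : ℝ} (hc : 0 < c) :
    ∃ᶠ N : ℕ in atTop, m f N / Real.sqrt N < c := by
  obtain ⟨C, hC⟩ := bounded_subsequence hf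
  have h1 : Tendsto (fun N : ℕ => c * Real.sqrt N) atTop atTop :=
    (Real.tendsto_sqrt_atTop.comp tendsto_natCast_atTop_atTop).const_mul_atTop hc
  refine (hC.and_eventually ((h1.eventually_gt_atTop C).and (eventually_gt_atTop 0))).mono ?_
  rintro N ⟨h2, h3, h4⟩
  have h5 : 0 < Real.sqrt N := Real.sqrt_pos.mpr (by exact_mod_cast h4)
  rw [div_lt_iff₀ h5]
  linarith

theorem liminf_zero {f : ℕ → ℂ} (hf : ∀ n, 1 ≤ n → ‖f n‖ = 1) :
    liminf (fun N : ℕ => m f N / Real.sqrt N) atTop = 0 := by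
  rw [liminf_eq]
  have h1 : {a : ℝ | ∀ᶠ N : ℕ in atTop, a ≤ m f N / Real.sqrt N} = Set.Iic 0 := by
    ext a
    simp only [Set.mem_ofPred_eq, Set.mem_Iic]
    constructor
    · intro h
      by_contra ha
      push Not at ha
      obtain ⟨N, h2, h3⟩ := ((frequently_small hf ha).and_eventually h).exists
      linarith
    · intro h
      exact Eventually.of_forall fun N => h.trans (div_nonneg (m_nonneg f N) (Real.sqrt_nonneg _))
  rw [h1, csSup_Iic]

theorem norm_liouville (n : ℕ) (hn : 1 ≤ n) : ‖liouville n‖ = 1 := by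
  unfold liouville
  rw [ArithmeticFunction.liouville_apply (by omega)]
  simp

/-- **Answer.** For the Liouville function `liminf m(N) / √N = 0`; in other words there are no `c > 0` and `N₀` with
`|S_N(θ)| ≥ c √N` for all `θ` and all `N ≥ N₀`. More strongly `m(N)` is bounded along a subsequence, and both facts
hold for every sequence of complex numbers of modulus one. -/
theorem result :
    liminf (fun N : ℕ => m liouville N / Real.sqrt N) atTop = 0 ∧
    (¬ ∃ c : ℝ, 0 < c ∧ ∃ N₀ : ℕ, ∀ N : ℕ, N₀ ≤ N → ∀ θ : ℝ, c * Real.sqrt N ≤ ‖S liouville N θ‖) ∧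
    (∀ f : ℕ → ℂ, (∀ n, 1 ≤ n → ‖f n‖ = 1) →
      liminf (fun N : ℕ => m f N / Real.sqrt N) atTop = 0 ∧ ∃ C : ℝ, ∃ᶠ N in atTop, m f N ≤ C) := by
  refine ⟨liminf_zero norm_liouville, ?_, fun f hf => ⟨liminf_zero hf, bounded_subsequence hf⟩⟩
  rintro ⟨c, hc, N₀, h⟩
  obtain ⟨N, h1, h2, h3⟩ :=
    ((frequently_small norm_liouville hc).and_eventually
      ((eventually_ge_atTop N₀).and (eventually_gt_atTop 0))).exists
  have h5 : 0 < Real.sqrt N := Real.sqrt_pos.mpr (by exact_mod_cast h3)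
  rw [div_lt_iff₀ h5] at h1
  have h6 : c * Real.sqrt N ≤ m liouville N := le_ciInf fun θ => h N h2 θ
  linarith

end Pool.Agent.Results.MP_69dca4_nt.NotFlat
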